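import Pool.Agent.W52.DPInd
import Pool.Agent.W822.PD.Stm
import Pool.Agent.H984R3.Per.Trial

/-!
# PD-TRI: probability of a trial (helper806)
-/

set_option autoImplicit false

namespace Pool.Agent.W806.PDTri

open H974 H12S Finset H389NS H984P H984N H342P
open Pool.Agent.W92.DP Pool.Agent.W822.PD Pool.Agent.W52.DPInd
open H984P.Tr760

/-- shift of an edge -/
def she (z : Vtx) (e : Edg) : Edg := (e.1 + z.1, e.2.1 + z.2, e.2.2)

theorem mem_tr {z : Vtx} {F : Finset Edg} {e : Edg} : e ∈ tr z F ↔ she z e ∈ F := by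
  unfold tr
  rw [LSym.mem_mp]
  have : (trl (-z.1) (-z.2)).φ.symm e = she z e := by
    change ((e.1 - -z.1, e.2.1 - -z.2, e.2.2) : Edg) = _
    rw [sub_neg_eq_add, sub_neg_eq_add]
    rfl
  rw [this]

theorem SA_SC {U : ℤ} (hU : 1 ≤ U) : SA U ⊆ SC U := by
  intro e he
  unfold SA at he
  rw [H973.mem_ES] at he
  have h3 := mem_HA.mp he.1
  have h4 := mem_HA.mp he.2
  unfold SC
  obtain ⟨x, y, _ | _⟩ := e
  · rw [src_mk] at h3
    rw [tgt_false] at h4
    rw [mem_RE_false]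
    omega
  · rw [src_mk] at h3
    rw [tgt_true] at h4
    rw [mem_RE_true]
    omega

theorem SA_y {U : ℤ} {e : Edg} (he : e ∈ SA U) : 0 ≤ e.2.1 ∧ e.2.1 ≤ 39 * U := by
  unfold SA at he
  rw [H973.mem_ES] at he
  have h3 := mem_HA.mp he.1
  obtain ⟨x, y, b⟩ := e
  rw [src_mk] at h3
  exact h3.1.2

theorem inter_SA {U : ℤ} (hU : 1 ≤ U) (F : Finset Edg) : (F ∩ SC U) ∩ SA U = F ∩ SA U := by
  rw [Finset.inter_assoc, Finset.inter_eq_right.2 (SA_SC hU)]

theorem V4_SC {L m : ℕ} (hL : 1 ≤ L) (hm : 1 ≤ m) {F G : Finset Edg}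
    (h : F ∩ SA (L * m : ℕ) = G ∩ SA (L * m : ℕ)) : V4 L m F = V4 L m G := by
  rw [V4_local hL hm F, h, ← V4_local hL hm G]

theorem TB_sub {U : ℤ} (hU : 1 ≤ U) : TBE (-(17 * U)) (-U) (-(28 * U)) (12 * U) ⊆ SC U := by
  refine TBE_subset_RE.trans ?_
  unfold SC
  exact RE_subset (by omega) (by omega) (by omega) (by omega)

theorem DT_sub {U : ℤ} (hU : 1 ≤ U) : LRE U (6 * U) (36 * U) (68 * U) ⊆ SC U := by
  refine LRE_subset_RE.trans ?_
  unfold SC
  exact RE_subset (by omega) (by omega) (by omega) (by omega)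

theorem Cc_local {U : ℤ} (hU : 1 ≤ U) (F : Finset Edg) : Cc U F ↔ Cc U (F ∩ SC U) := by
  unfold Cc
  rw [← TBc_local (TB_sub hU), ← DTB_local (DT_sub hU), GO_local hU F, GO_local hU (F ∩ SC U),
    GD_local hU F, GD_local hU (F ∩ SC U), inter_SA hU]

/-- Monotonicity of `Cc`. -/
theorem Cc_mono {U : ℤ} (hU : 1 ≤ U) {F G : Finset Edg} (h0 : F ∩ SA U = G ∩ SA U)
    (h1 : ∀ e ∈ RE (-(17 * U)) (-U) (-(28 * U)) (12 * U), e ∈ F → e ∈ G)
    (h2 : ∀ e ∈ RE U (6 * U) (36 * U) (68 * U), e ∈ G → e ∈ F) (h : Cc U F) : Cc U G := by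
  obtain ⟨⟨h3, h4⟩, h5, h6⟩ := h
  refine ⟨⟨?_, ?_⟩, ?_, ?_⟩
  · rw [GO_local hU, h0, ← GO_local hU] at h3
    exact h3
  · rw [TBc_local (TBE_subset_RE (a := -(17 * U)) (b := -U) (c := -(28 * U)) (d := 12 * U))]
      at h4 ⊢
    refine h4.mono ?_
    intro e he
    rw [Finset.mem_inter] at he ⊢
    exact ⟨h1 e he.2 he.1, he.2⟩
  · rw [GD_local hU, h0, ← GD_local hU] at h5
    exact h5
  · obtain ⟨x, x', hx, hx', hr⟩ := h6
    refine ⟨x, x', hx, hx', hr.mono ?_⟩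
    intro e he
    rw [Finset.mem_coe, Finset.mem_sdiff] at he ⊢
    exact ⟨he.1, fun hG => he.2 (h2 e (LRE_subset_RE he.1) hG)⟩

/-- Geometry: the edges of `SA` are outside of both hooks. -/
theorem geo_SA {X Y U : ℤ} {a : ℕ} (ha : (a : ℤ) = 6 * U) (hU : 1 ≤ U) {e : Edg}
    (he : e ∈ SA U) : she (X + 32 * a, Y - 20 * U) e ∉ HkE X Y a ∧
      dl (she (X + 32 * a, Y - 20 * U) e) ∉ HkE' X Y a := by
  have h1 := SA_SC hU he
  have h2 := SA_y he
  unfold SC at h1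
  obtain ⟨x, y, _ | _⟩ := e
  · rw [mem_RE_false] at h1
    simp only [she, HkE, HkE', dl_f, Finset.mem_union, mem_RE_false, mem_RE_true] at h2 ⊢
    omega
  · rw [mem_RE_true] at h1
    simp only [she, HkE, HkE', dl_t, Finset.mem_union, mem_RE_false, mem_RE_true] at h2 ⊢
    omega

theorem geo_O {X Y U : ℤ} {a : ℕ} (ha : (a : ℤ) = 6 * U) (hU : 1 ≤ U) {e : Edg}
    (he : e ∈ RE (-(17 * U)) (-U) (-(28 * U)) (12 * U)) :
    dl (she (X + 32 * a, Y - 20 * U) e) ∉ HkE' X Y a := by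
  obtain ⟨x, y, _ | _⟩ := e
  · rw [mem_RE_false] at he
    simp only [she, HkE', dl_f, Finset.mem_union, mem_RE_false, mem_RE_true]
    omega
  · rw [mem_RE_true] at he
    simp only [she, HkE', dl_t, Finset.mem_union, mem_RE_false, mem_RE_true]
    omega

theorem geo_D {X Y U : ℤ} {a : ℕ} (ha : (a : ℤ) = 6 * U) (hU : 1 ≤ U) {e : Edg}
    (he : e ∈ RE U (6 * U) (36 * U) (68 * U)) :
    she (X + 32 * a, Y - 20 * U) e ∉ HkE X Y a := by
  obtain ⟨x, y, _ | _⟩ := e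
  · rw [mem_RE_false] at he
    simp only [she, HkE, Finset.mem_union, mem_RE_false]
    omega
  · rw [mem_RE_true] at he
    simp only [she, HkE, Finset.mem_union, mem_RE_true]
    omega

theorem geo_Bl {X Y U : ℤ} {a : ℕ} (ha : (a : ℤ) = 6 * U) (hU : 1 ≤ U) {e : Edg}
    (he : e ∈ SC U) : she (X + 32 * a, Y - 20 * U) e ∈ Bl X Y a ∧
      X ≤ (she (X + 32 * a, Y - 20 * U) e).1 := by
  unfold SC at he
  obtain ⟨x, y, _ | _⟩ := e
  · rw [mem_RE_false] at he
    simp only [she, Bl, mem_RE_false]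
    omega
  · rw [mem_RE_true] at he
    simp only [she, Bl, mem_RE_true]
    omega

theorem sd_shift (v w z : Vtx) : sd (v.1 + z.1, v.2 + z.2) (w.1 + z.1, w.2 + z.2) = sd v w := by
  unfold sd
  simp only [add_sub_add_right_eq_sub]

/-- translation of vertices -/
def shv (z : Vtx) : Vtx ↪ Vtx where
  toFun v := (v.1 + z.1, v.2 + z.2)
  inj' v w h := by
    obtain ⟨h1, h2⟩ := Prod.mk.inj h
    exact Prod.ext (add_right_cancel h1) (add_right_cancel h2)

theorem EnV_shift (t : ℝ) (z : Vtx) (V : Finset Vtx) : EnV t (V.map (shv z)) = EnV t V := by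
  unfold EnV
  rw [Finset.sum_map]
  refine Finset.sum_congr rfl fun v _ => ?_
  rw [Finset.sum_map]
  refine Finset.sum_congr rfl fun w _ => ?_
  rw [show sd (shv z v) (shv z w) = sd v w from sd_shift v w z]

/-- Probability of the crossings, the hooks and many vertices. -/
theorem trialC : ∃ c1 : ℝ, 0 < c1 ∧ ∀ (L m : ℕ) (p c0 : ℝ), 2 ≤ L → 64 ≤ m → 0 ≤ p →
    (∀ S : Finset Edg, SC (L * m : ℕ) ⊆ S → p ≤ PQ (1/2) S (fun F => Cc (L * m : ℕ) F ∧
      c0 * ((m : ℕ) : ℝ) ^ (3/4 : ℝ) ≤ ((V4 L m F).card : ℝ))) →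
    ∀ (t ε E : ℝ), (∀ S : Finset Edg, SC (L * m : ℕ) ⊆ S →
      PQ (1/2) S (fun F => E * ((m : ℕ) : ℝ) ^ (3/2 - t) < En4 t L m F) ≤ ε) →
    ∀ (S k F0 : Finset Edg) (A y0 X Y : ℤ) (T a : ℕ), a = 6 * (L * m) →
    F0 ⊆ S → k ⊆ S → Strand (↑F0 : Set Edg) A y0 X Y T → A ≤ X - 9 * a →
    Bl X Y a ⊆ S → ((A - 1, y0, true) : Edg) ∈ k → Exm (↑F0) (st0 A y0) T ⊆ k →
    (∀ e ∈ k, e ∈ Bl X Y a → e ∈ Exm (↑F0) (st0 A y0) T) → PD_DET →
    p * (c1 * c1) - ε ≤
      Pr (fun _ => (1/2:ℝ)) (S \ k) (fun G => ∃ V : Finset Vtx,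
        (c0 * ((m : ℕ) : ℝ) ^ (3/4 : ℝ) ≤ (V.card : ℝ) ∧ EnV t V ≤ E * ((m : ℕ) : ℝ) ^ (3/2 - t)) ∧
        ∀ v ∈ V, PinA (2 * a) (st0 A y0)
          (↑(Exm (↑F0) (st0 A y0) T ∪ Bl X Y a)) (↑((F0 ∩ k) ∪ G)) v) := by
  classical
  obtain ⟨c0', hc0', hpr⟩ := pr_hook
  refine ⟨c0', hc0', ?_⟩
  intro L m p c0 hL hm hp hcen t ε E hen S k F0 A y0 X Y T a haeq hF0 hk hst hA hBl hent hEk hkE
    hdet
  have hLm : 1 ≤ L * m := Nat.mul_pos (by omega) (by omega)
  obtain ⟨U, hUdef⟩ : ∃ U : ℤ, U = ((L * m : ℕ) : ℤ) := ⟨_, rfl⟩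
  have hU : 1 ≤ U := by rw [hUdef]; exact_mod_cast hLm
  have haU : (a : ℤ) = 6 * U := by rw [haeq, hUdef]; push_cast; rfl
  have ha : 1 ≤ a := by omega
  have ha' : (1 : ℤ) ≤ a := by exact_mod_cast ha
  obtain ⟨hv, hf, hS⟩ := side_exists hst
  -- edges of the block which are not examined are fresh
  have fresh : ∀ e, e ∈ Bl X Y a → e ∉ Exm (↑F0) (st0 A y0) T → e ∈ S \ k := by
    intro e he he'
    rw [Finset.mem_sdiff]
    exact ⟨hBl he, fun h => he' (hkE e h he)⟩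
  have notEx : ∀ e : Edg, X ≤ e.1 → e ∉ Exm (↑F0) (st0 A y0) T := by
    intro e he h
    have := (exm_loc hst h).2.1
    omega
  set D := S \ k with hD
  set TL := Tlow (↑F0) A y0 X Y T a hv with hTL
  set TU := Tup (↑F0) A y0 X Y T a hf with hTU
  have TL_D : ∀ e ∈ TL, e ∈ D := fun e he => fresh e (H984P.Tr760.HkE_sub ha he.1) he.2.1
  have TU_D : ∀ e ∈ TU, e ∈ D := fun e he => fresh e (dHk_sub ha he.1) he.2.1
  have LS_TL : ∀ e ∈ LS X Y a, e ∈ TL := by
    intro e he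
    obtain ⟨h1, h2, h3, h4, h5⟩ := LS_loc he
    refine ⟨LS_sub he, notEx e h5, ?_, ?_⟩
    · exact (hS.rightv (src e).1 (src e).2 h1).2 h2
    · exact (hS.rightv (tgt e).1 (tgt e).2 h3).2 h4
  have US_TU : ∀ e, dl e ∈ US X Y a → e ∈ TU := by
    intro e he
    obtain ⟨h1, h2, h3, h4, h5⟩ := US_loc he
    refine ⟨US_sub he, notEx e h5, ?_, ?_⟩
    · exact (hS.rightf (dsrc e).1 (dsrc e).2 h1).2 h2
    · exact (hS.rightf (dtgt e).1 (dtgt e).2 h3).2 h4
  set T1 := D.filter (fun e => e ∈ TL) with hT1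
  set T2 := D.filter (fun e => e ∈ TU) with hT2
  have mT1 : ∀ e, e ∈ T1 ↔ e ∈ TL := by
    intro e
    rw [hT1, Finset.mem_filter]
    exact ⟨fun h => h.2, fun h => ⟨TL_D e h, h⟩⟩
  have mT2 : ∀ e, e ∈ T2 ↔ e ∈ TU := by
    intro e
    rw [hT2, Finset.mem_filter]
    exact ⟨fun h => h.2, fun h => ⟨TU_D e h, h⟩⟩
  have hdisj : Disjoint T1 T2 := by
    rw [Finset.disjoint_left]
    intro e h1 h2
    rw [mT1] at h1
    rw [mT2] at h2
    obtain ⟨h1a, h1b, h1c, h1d⟩ := h1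
    obtain ⟨h2a, h2b, h2c, h2d⟩ := h2
    have hAe : A ≤ e.1 := by
      have := HkE_ge h1a
      omega
    by_cases hray : X ≤ e.1 ∧ e.2.1 = Y
    · obtain ⟨x, y, _ | _⟩ := e
      · simp only at hray
        rw [tgt_false] at h1d
        have := (hS.rightv x (y + 1) hray.1).1 h1d
        omega
      · simp only at hray
        rw [dsrc_true] at h2c
        have := (hS.rightf x (y - 1) hray.1).1 h2c
        omega
    · obtain ⟨_, _, h3⟩ := hS.free e h1b hAe hray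
      rw [h1c, h2d] at h3
      exact absurd h3 (by decide)
  set Lst : Set Vtx := {v | ∃ s ≤ T, (orb (↑F0) (st0 A y0) s).1 = v} with hLst
  set Rst : Set Vtx := {f | ∃ s ≤ T, face (orb (↑F0) (st0 A y0) s) = f} with hRst
  set z : Vtx := (X + 32 * a, Y - 20 * U) with hz
  -- fresh edges
  have hSCD : ∀ e ∈ SC U, she z e ∈ D := fun e he =>
    fresh _ (geo_Bl haU hU he).1 (notEx _ (geo_Bl haU hU he).2)
  set N : Finset Edg → Prop := fun G => Cc U (tr z G) ∧
    c0 * ((m : ℕ) : ℝ) ^ (3/4 : ℝ) ≤ ((V4 L m (tr z G)).card : ℝ) with hN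
  have key := harris_signed (p := fun _ : Edg => (1/2:ℝ)) ok_half (S := D) (T₁ := T1) (T₂ := T2)
    (Finset.filter_subset _ _) (Finset.filter_subset _ _) hdisj
    (N := N)
    (f := fun G => LEv X Y a Lst TL (↑G : Set Edg))
    (g := fun G => UEv X Y a Rst TU (↑G : Set Edg))
    (by
      intro F _
      constructor
      · apply LEv_mono
        · intro e he heF
          rw [Finset.mem_coe, Finset.mem_inter]
          exact ⟨heF, (mT1 e).2 (LS_TL e he)⟩
        · intro e he heF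
          rw [Finset.mem_coe, Finset.mem_inter]
          exact ⟨heF, (mT1 e).2 he⟩
      · apply LEv_mono
        · intro e _ heF
          rw [Finset.mem_coe, Finset.mem_inter] at heF
          exact heF.1
        · intro e _ heF
          rw [Finset.mem_coe, Finset.mem_inter] at heF
          exact heF.1)
    (by
      intro F G hFG
      apply LEv_mono
      · intro e _ heF
        exact hFG heF
      · intro e _ heF
        exact hFG heF)
    (by
      intro F _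
      constructor
      · apply UEv_mono
        · intro e _ heF
          rw [Finset.mem_coe, Finset.mem_inter] at heF
          exact heF.1
        · intro e _ heF
          rw [Finset.mem_coe, Finset.mem_inter] at heF
          exact heF.1
      · apply UEv_mono
        · intro e he heF
          rw [Finset.mem_coe, Finset.mem_inter]
          exact ⟨heF, (mT2 e).2 (US_TU e he)⟩
        · intro e he heF
          rw [Finset.mem_coe, Finset.mem_inter]
          exact ⟨heF, (mT2 e).2 he⟩)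
    (by
      intro F G hFG
      apply UEv_mono
      · intro e _ heF
        exact hFG heF
      · intro e _ heF
        exact hFG heF)
    (by
      intro F G hFD hGD hout h1 h2 hNF
      have hO : ∀ e, dl e ∉ HkE' X Y a → e ∈ F → e ∈ G := by
        intro e he heF
        have hn2 : e ∉ T2 := fun h => he ((mT2 e).1 h).1
        by_cases hn1 : e ∈ T1
        · exact (Finset.mem_inter.1 (h1 (Finset.mem_inter.2 ⟨heF, hn1⟩))).1
        · have : e ∈ F \ (T1 ∪ T2) := by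
            rw [Finset.mem_sdiff, Finset.mem_union]
            exact ⟨heF, fun h => h.elim hn1 hn2⟩
          rw [hout, Finset.mem_sdiff] at this
          exact this.1
      have hD' : ∀ e, e ∉ HkE X Y a → e ∈ G → e ∈ F := by
        intro e he heG
        have hn1 : e ∉ T1 := fun h => he ((mT1 e).1 h).1
        by_cases hn2 : e ∈ T2
        · exact (Finset.mem_inter.1 (h2 (Finset.mem_inter.2 ⟨heG, hn2⟩))).1
        · have : e ∈ G \ (T1 ∪ T2) := by
            rw [Finset.mem_sdiff, Finset.mem_union]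
            exact ⟨heG, fun h => h.elim hn1 hn2⟩
          rw [← hout, Finset.mem_sdiff] at this
          exact this.1
      have hSAeq : tr z F ∩ SA U = tr z G ∩ SA U := by
        ext e
        rw [Finset.mem_inter, Finset.mem_inter, mem_tr, mem_tr]
        constructor
        · rintro ⟨h3, h4⟩
          exact ⟨hO _ (geo_SA haU hU h4).2 h3, h4⟩
        · rintro ⟨h3, h4⟩
          exact ⟨hD' _ (geo_SA haU hU h4).1 h3, h4⟩
      refine ⟨Cc_mono hU hSAeq ?_ ?_ hNF.1, ?_⟩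
      · intro e he heF
        rw [mem_tr] at heF ⊢
        exact hO _ (geo_O haU hU he) heF
      · intro e he heG
        rw [mem_tr] at heG ⊢
        exact hD' _ (geo_D haU hU he) heG
      · have h5 := V4_SC (L := L) (m := m) (by omega) (by omega) (F := tr z F) (G := tr z G)
          (by rw [← hUdef]; exact hSAeq)
        rw [← h5]
        exact hNF.2)
  have hDS : D ⊆ S := Finset.sdiff_subset
  -- lower bound for the first hook
  have hPf : c0' ≤ Pr (fun _ => (1/2:ℝ)) D (fun G => LEv X Y a Lst TL (↑G : Set Edg)) := by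
    refine (hpr X Y a S ha hBl).1.trans ?_
    have e1 : Pr (fun _ => (1/2:ℝ)) D (fun G => LEv X Y a Lst TL (↑G : Set Edg)) =
        Pr (fun _ => (1/2:ℝ)) S (fun G => LEv X Y a Lst TL (↑(G ∩ D) : Set Edg)) := by
      rw [Pr_local (S := S) (S' := D) hDS (A := fun G => LEv X Y a Lst TL (↑(G ∩ D) : Set Edg))
        (fun F _ => by rw [Finset.inter_assoc, Finset.inter_self])]
      apply Pr_congr
      intro F hF
      rw [Finset.inter_eq_left.2 hF]
    rw [e1]
    apply Pr_mono ok_half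
    intro F hF hHk
    have h3 := low_side ha hst hS hA hHk
    refine LEv_mono ?_ ?_ h3
    · intro e he heF
      rw [Finset.mem_coe, Finset.mem_inter]
      exact ⟨heF, TL_D e (LS_TL e he)⟩
    · intro e he heF
      rw [Finset.mem_coe, Finset.mem_inter]
      exact ⟨heF, TL_D e he⟩
  have hPg : c0' ≤ Pr (fun _ => (1/2:ℝ)) D (fun G => UEv X Y a Rst TU (↑G : Set Edg)) := by
    refine (hpr X Y a S ha hBl).2.trans ?_
    have e1 : Pr (fun _ => (1/2:ℝ)) D (fun G => UEv X Y a Rst TU (↑G : Set Edg)) =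
        Pr (fun _ => (1/2:ℝ)) S (fun G => UEv X Y a Rst TU (↑(G ∩ D) : Set Edg)) := by
      rw [Pr_local (S := S) (S' := D) hDS (A := fun G => UEv X Y a Rst TU (↑(G ∩ D) : Set Edg))
        (fun F _ => by rw [Finset.inter_assoc, Finset.inter_self])]
      apply Pr_congr
      intro F hF
      rw [Finset.inter_eq_left.2 hF]
    rw [e1]
    apply Pr_mono ok_half
    intro F hF hHk
    have h3 := up_side ha hst hS hA hHk
    refine UEv_mono ?_ ?_ h3
    · intro e _ heF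
      rw [Finset.mem_coe, Finset.mem_inter] at heF
      exact heF.1
    · intro e _ heF
      rw [Finset.mem_coe, Finset.mem_inter] at heF
      exact heF.1
  have hPN : p ≤ Pr (fun _ => (1/2:ℝ)) D N := by
    have h1 := hcen (tr z D) (by
      rw [← hUdef]
      intro e he
      rw [mem_tr]
      exact hSCD e he)
    have h2 := (trl (-z.1) (-z.2)).pr (1/2) D (fun F => Cc (L * m : ℕ) F ∧
      c0 * ((m : ℕ) : ℝ) ^ (3/4 : ℝ) ≤ ((V4 L m F).card : ℝ))
    have h3 : PQ (1/2) (tr z D) (fun F => Cc (L * m : ℕ) F ∧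
      c0 * ((m : ℕ) : ℝ) ^ (3/4 : ℝ) ≤ ((V4 L m F).card : ℝ)) =
      Pr (fun _ => (1/2:ℝ)) D N := by
      rw [hN, hUdef]
      exact h2
    rw [← h3]
    exact h1
  have hPE : Pr (fun _ => (1/2:ℝ)) D (fun G => E * ((m : ℕ) : ℝ) ^ (3/2 - t) <
      En4 t L m (tr z G)) ≤ ε := by
    have h1 := hen (tr z D) (by
      rw [← hUdef]
      intro e he
      rw [mem_tr]
      exact hSCD e he)
    have h2 := (trl (-z.1) (-z.2)).pr (1/2) D (fun F => E * ((m : ℕ) : ℝ) ^ (3/2 - t) <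
      En4 t L m F)
    refine le_trans (le_of_eq ?_) h1
    exact h2.symm
  have hNfg : p * (c0' * c0') ≤ Pr (fun _ => (1/2:ℝ)) D (fun F => N F ∧
      (LEv X Y a Lst TL (↑F : Set Edg) ∧ UEv X Y a Rst TU (↑F : Set Edg))) := by
    refine le_trans ?_ key
    exact mul_le_mul hPN (mul_le_mul hPf hPg hc0'.le (hc0'.le.trans hPf)) (by positivity)
      (hp.trans hPN)
  have hsplit : Pr (fun _ => (1/2:ℝ)) D (fun F => N F ∧
      (LEv X Y a Lst TL (↑F : Set Edg) ∧ UEv X Y a Rst TU (↑F : Set Edg))) ≤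
      Pr (fun _ => (1/2:ℝ)) D (fun F => (N F ∧
      (LEv X Y a Lst TL (↑F : Set Edg) ∧ UEv X Y a Rst TU (↑F : Set Edg))) ∧
        En4 t L m (tr z F) ≤ E * ((m : ℕ) : ℝ) ^ (3/2 - t)) +
      Pr (fun _ => (1/2:ℝ)) D (fun G => E * ((m : ℕ) : ℝ) ^ (3/2 - t) <
      En4 t L m (tr z G)) := by
    refine le_trans ?_ (Pr_or_le ok_half _ _ _)
    apply Pr_mono ok_half
    intro F _ h
    rcases le_or_gt (En4 t L m (tr z F)) (E * ((m : ℕ) : ℝ) ^ (3/2 - t)) with h1 | h1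
    · exact Or.inl ⟨h, h1⟩
    · exact Or.inr h1
  have hfin : p * (c0' * c0') - ε ≤ Pr (fun _ => (1/2:ℝ)) D (fun F => (N F ∧
      (LEv X Y a Lst TL (↑F : Set Edg) ∧ UEv X Y a Rst TU (↑F : Set Edg))) ∧
        En4 t L m (tr z F) ≤ E * ((m : ℕ) : ℝ) ^ (3/2 - t)) := by linarith
  refine hfin.trans ?_
  apply Pr_mono ok_half
  rintro G hG ⟨⟨⟨hNC, hNV⟩, hL', hU'⟩, hEn⟩
  -- the configuration with the examined edges
  have hmem : ∀ e, e ∉ k → (e ∈ (F0 ∩ k) ∪ G ↔ e ∈ G) := by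
    intro e he
    rw [Finset.mem_union, Finset.mem_inter]
    exact ⟨fun h => h.elim (fun h => absurd h.2 he) id, Or.inr⟩
  have hmemk : ∀ e, e ∈ k → (e ∈ F0 ↔ e ∈ (F0 ∩ k) ∪ G) := by
    intro e he
    rw [Finset.mem_union, Finset.mem_inter]
    exact ⟨fun h => Or.inl ⟨h, he⟩, fun h => h.elim (fun h => h.1)
      (fun h => absurd he (Finset.mem_sdiff.1 (hG h)).2)⟩
  have hagr : ∀ e ∈ Exm (↑F0 : Set Edg) (st0 A y0) T,
      (e ∈ (↑F0 : Set Edg) ↔ e ∈ (↑((F0 ∩ k) ∪ G) : Set Edg)) := fun e he => hmemk e (hEk he)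
  have hent' : ((A - 1, y0, true) : Edg) ∈ (↑((F0 ∩ k) ∪ G) : Set Edg) :=
    (hmemk _ hent).1 hst.ent
  have hst' := strand_congr hst hagr hent'
  have hEx : Exm (↑((F0 ∩ k) ∪ G) : Set Edg) (st0 A y0) T = Exm (↑F0 : Set Edg) (st0 A y0) T :=
    Exm_congr hagr
  have hLs : {v | ∃ s ≤ T, (orb (↑((F0 ∩ k) ∪ G) : Set Edg) (st0 A y0) s).1 = v} = Lst := by
    ext v
    constructor
    · rintro ⟨s, hs, h⟩
      exact ⟨s, hs, by rw [← orb_congr hagr hs]; exact h⟩
    · rintro ⟨s, hs, h⟩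
      exact ⟨s, hs, by rw [orb_congr hagr hs]; exact h⟩
  have hRs : {f | ∃ s ≤ T, face (orb (↑((F0 ∩ k) ∪ G) : Set Edg) (st0 A y0) s) = f} = Rst := by
    ext v
    constructor
    · rintro ⟨s, hs, h⟩
      exact ⟨s, hs, by rw [← orb_congr hagr hs]; exact h⟩
    · rintro ⟨s, hs, h⟩
      exact ⟨s, hs, by rw [orb_congr hagr hs]; exact h⟩
  have hTLs : Tlow (↑((F0 ∩ k) ∪ G) : Set Edg) A y0 X Y T a hv = TL := by
    rw [hTL]
    unfold Tlow
    rw [hEx]
  have hTUs : Tup (↑((F0 ∩ k) ∪ G) : Set Edg) A y0 X Y T a hf = TU := by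
    rw [hTU]
    unfold Tup
    rw [hEx]
  have notk : ∀ e ∈ D, e ∉ k := fun e he => (Finset.mem_sdiff.1 he).2
  have hSCeq : tr z ((F0 ∩ k) ∪ G) ∩ SC U = tr z G ∩ SC U := by
    ext e
    rw [Finset.mem_inter, Finset.mem_inter, mem_tr, mem_tr]
    constructor
    · rintro ⟨h3, h4⟩
      exact ⟨(hmem _ (notk _ (hSCD e h4))).1 h3, h4⟩
    · rintro ⟨h3, h4⟩
      exact ⟨(hmem _ (notk _ (hSCD e h4))).2 h3, h4⟩
  have hSAeq : tr z ((F0 ∩ k) ∪ G) ∩ SA U = tr z G ∩ SA U := by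
    rw [← inter_SA hU, hSCeq, inter_SA hU]
  have hCc' : Cc U (tr z ((F0 ∩ k) ∪ G)) := by
    rw [Cc_local hU, hSCeq, ← Cc_local hU]
    exact hNC
  have hV4' : V4 L m (tr z ((F0 ∩ k) ∪ G)) = V4 L m (tr z G) :=
    V4_SC (by omega) (by omega) (by rw [← hUdef]; exact hSAeq)
  have hdd := hdet L m a ((F0 ∩ k) ∪ G) A y0 X Y T hv hf hL hm haeq hst'
    (by
      rw [hLs, hTLs]
      refine LEv_mono ?_ ?_ hL'
      · intro e _ he
        exact Finset.mem_union_right _ he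
      · intro e _ he
        exact Finset.mem_union_right _ he)
    (by
      rw [hRs, hTUs]
      refine UEv_mono ?_ ?_ hU'
      · intro e he heF
        exact (hmem e (notk e (TU_D e (US_TU e he)))).1 heF
      · intro e he heF
        exact (hmem e (notk e (TU_D e he))).1 heF)
    (by
      rw [← hUdef]
      exact hCc')
  rw [hEx, ← hUdef] at hdd
  refine ⟨(V4 L m (tr z G)).map (shv z), ⟨?_, ?_⟩, ?_⟩
  · rw [Finset.card_map]
    exact hNV
  · rw [EnV_shift]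
    exact hEn
  · intro v hv'
    rw [Finset.mem_map] at hv'
    obtain ⟨w, hw, rfl⟩ := hv'
    rw [← hV4'] at hw
    unfold V4 at hw
    rw [Finset.mem_filter, ← hUdef] at hw
    exact hdd w hw.1 hw.2

theorem tri : PD_CEN → PD_DET → PD_TRI := by
  rintro ⟨L, M0, c0, p, hL, hM0, hc0, hp, hcen, hen⟩ hdet t ht ht'
  obtain ⟨c1, hc1, htr⟩ := trialC
  have hδ : 0 < p * (c1 * c1) / 2 := by positivity
  obtain ⟨E, hE, hen'⟩ := hen t ht ht' _ hδ
  have hK : (0 : ℝ) < ((6 * L : ℕ) : ℝ) := by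
    have : 0 < 6 * L := by omega
    exact_mod_cast this
  refine ⟨6 * L * M0, c0 * (((6 * L : ℕ) : ℝ) ^ (3/4 : ℝ))⁻¹, E, p * (c1 * c1) / 2,
    Nat.mul_pos (by omega) (by omega), by positivity, hE, hδ, ?_⟩
  intro S A y0 r hr k F0 X Y T hF0 hk hst hA hBl hent hEk hkE
  have hm : 64 ≤ M0 * r := le_trans hM0 (Nat.le_mul_of_pos_right M0 hr)
  have haeq : 6 * L * M0 * r = 6 * (L * (M0 * r)) := by ring
  have h1 := htr L (M0 * r) p c0 hL hm hp.le (hcen r hr) t _ E (hen' r hr) S k F0 A y0 X Y T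
    (6 * L * M0 * r) haeq hF0 hk hst (by omega) hBl hent hEk hkE hdet
  have h2 : p * (c1 * c1) - p * (c1 * c1) / 2 = p * (c1 * c1) / 2 := by ring
  rw [h2] at h1
  refine h1.trans ?_
  apply Pr_mono ok_half
  rintro G _ ⟨V, ⟨hV1, hV2⟩, hV3⟩
  have hm0 : (0 : ℝ) < ((M0 * r : ℕ) : ℝ) := by
    have : 0 < M0 * r := by omega
    exact_mod_cast this
  have hcast : ((6 * L * M0 * r : ℕ) : ℝ) = ((6 * L : ℕ) : ℝ) * ((M0 * r : ℕ) : ℝ) := by
    push_cast
    ring
  refine ⟨V, ?_, ?_, hV3⟩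
  · refine le_trans (le_of_eq ?_) hV1
    rw [hcast, Real.mul_rpow hK.le hm0.le]
    have h3 : ((6 * L : ℕ) : ℝ) ^ (3/4 : ℝ) ≠ 0 := (Real.rpow_pos_of_pos hK _).ne'
    rw [mul_assoc, ← mul_assoc (((6 * L : ℕ) : ℝ) ^ (3/4 : ℝ))⁻¹, inv_mul_cancel₀ h3, one_mul]
  · refine hV2.trans ?_
    apply mul_le_mul_of_nonneg_left _ hE.le
    apply Real.rpow_le_rpow hm0.le _ (by linarith)
    have h4 : M0 * r ≤ 6 * L * M0 * r := by
      rw [haeq]
      have := Nat.le_mul_of_pos_left (M0 * r) (show 0 < L by omega)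
      omega
    exact_mod_cast h4

end Pool.Agent.W806.PDTri
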